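import Pool.Agent.U81.MQ.Fin
import Pool.Agent.K4H15.BW.Gal

/-!
The octic fields `K(√D, √D')`, `D'` the conjugate of `D`, in the towers.
-/

set_option autoImplicit false

namespace Pool.Agent.U81.TP

open NumberField IsDedekindDomain Pointwise WithZero
open Pool.Agent.K4H15.BW (tower roots root_mem adjoin_insert tower_galois tower_noncomm)
open Pool.Agent.K4H55.BI (IQ)
open Pool.Agent.K4H55.BD (tau tau_tau)
open Pool.Agent.U81.MQ (gal_sub norm_sub two_sub rank_two ext_tower act_root)

variable {K : Type} [Field K] [NumberField K] {σ : K →+* ℂ} {δ : K}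

/-- one step of Kummer theory -/
lemma step (T : Set (AlgebraicClosure K)) {x z : AlgebraicClosure K}
    (hx : x ^ 2 ∈ IntermediateField.adjoin K T)
    (hz : z ∈ IntermediateField.adjoin K (insert x T))
    (hz2 : z ^ 2 ∈ IntermediateField.adjoin K T) :
    z ∈ IntermediateField.adjoin K T ∨ ∃ v ∈ IntermediateField.adjoin K T, z = v * x := by
  classical
  by_cases hxT : x ∈ IntermediateField.adjoin K T
  · left
    have h1 : IntermediateField.adjoin K (insert x T) ≤ IntermediateField.adjoin K T :=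
      IntermediateField.adjoin_le_iff.2
        (Set.insert_subset hxT (IntermediateField.subset_adjoin K T))
    exact h1 hz
  · obtain ⟨u, hu, v, hv, rfl⟩ := adjoin_insert T hx hz
    have h1 : u * v = 0 := by
      by_contra hne
      apply hxT
      have h2 : x = ((u + v * x) ^ 2 - u ^ 2 - v ^ 2 * x ^ 2) * ((u * v)⁻¹ * 2⁻¹) := by
        have hu0 : u ≠ 0 := left_ne_zero_of_mul hne
        have hv0 : v ≠ 0 := right_ne_zero_of_mul hne
        field_simp
        ring
      have h3 : (2 : AlgebraicClosure K) ∈ IntermediateField.adjoin K T := by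
        have := natCast_mem (IntermediateField.adjoin K T) 2
        exact_mod_cast this
      rw [h2]
      exact mul_mem (sub_mem (sub_mem hz2 (pow_mem hu 2)) (mul_mem (pow_mem hv 2) hx))
        (mul_mem (inv_mem (mul_mem hu hv)) (inv_mem h3))
    rcases mul_eq_zero.1 h1 with rfl | rfl
    · right
      exact ⟨v, hv, by rw [zero_add]⟩
    · left
      rwa [zero_mul, add_zero]

lemma one_kummer {B C : K} {x z : AlgebraicClosure K}
    (hx : x ^ 2 = algebraMap K (AlgebraicClosure K) B)
    (hz2 : z ^ 2 = algebraMap K (AlgebraicClosure K) C)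
    (hz : z ∈ IntermediateField.adjoin K {x}) : IsSquare C ∨ IsSquare (C * B) := by
  have hinj := (algebraMap K (AlgebraicClosure K)).injective
  have hz' : z ∈ IntermediateField.adjoin K (insert x (∅ : Set (AlgebraicClosure K))) := by
    rwa [insert_empty_eq]
  rcases step ∅ (by rw [hx]; exact IntermediateField.algebraMap_mem _ _) hz'
    (by rw [hz2]; exact IntermediateField.algebraMap_mem _ _) with h1 | ⟨v, hv, rfl⟩
  · left
    rw [IntermediateField.adjoin_empty, IntermediateField.mem_bot] at h1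
    obtain ⟨k, rfl⟩ := h1
    refine ⟨k, hinj ?_⟩
    rw [← hz2, map_mul, pow_two]
  · right
    rw [IntermediateField.adjoin_empty, IntermediateField.mem_bot] at hv
    obtain ⟨k, rfl⟩ := hv
    refine ⟨k * B, hinj ?_⟩
    rw [map_mul, ← hz2, mul_pow, hx, map_mul, map_mul]
    ring

lemma two_kummer {A B C : K} {x x' z : AlgebraicClosure K} (hA : A ≠ 0)
    (hx : x ^ 2 = algebraMap K (AlgebraicClosure K) A)
    (hx' : x' ^ 2 = algebraMap K (AlgebraicClosure K) B)
    (hz2 : z ^ 2 = algebraMap K (AlgebraicClosure K) C)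
    (hz : z ∈ IntermediateField.adjoin K {x, x'}) :
    IsSquare C ∨ IsSquare (C * B) ∨ IsSquare (C * A) ∨ IsSquare (C * (A * B)) := by
  have hinj := (algebraMap K (AlgebraicClosure K)).injective
  rcases step {x'} (by rw [hx]; exact IntermediateField.algebraMap_mem _ _) hz
    (by rw [hz2]; exact IntermediateField.algebraMap_mem _ _) with h1 | ⟨v, hv, rfl⟩
  · rcases one_kummer hx' hz2 h1 with h2 | h2
    · exact Or.inl h2
    · exact Or.inr (Or.inl h2)
  · have hA' : algebraMap K (AlgebraicClosure K) A ≠ 0 := (map_ne_zero _).2 hA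
    have h1 : v ^ 2 = algebraMap K (AlgebraicClosure K) (C / A) := by
      rw [map_div₀, ← hz2, mul_pow, hx, mul_div_cancel_right₀ _ hA']
    rcases one_kummer hx' h1 hv with ⟨r, hr⟩ | ⟨r, hr⟩
    · refine Or.inr (Or.inr (Or.inl ⟨r * A, ?_⟩))
      have h2 : C = C / A * A := by field_simp
      rw [h2, hr]
      ring
    · refine Or.inr (Or.inr (Or.inr ⟨r * A, ?_⟩))
      have h2 : C * (A * B) = C / A * B * (A * A) := by field_simp
      rw [h2, hr]
      ring

omit [NumberField K] in
lemma tower_pair {D D' : 𝓞 K} {x x' : AlgebraicClosure K}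
    (hx : x ^ 2 = algebraMap K (AlgebraicClosure K) (D : K))
    (hx' : x' ^ 2 = algebraMap K (AlgebraicClosure K) (D' : K)) :
    tower ({D, D'} : Set (𝓞 K)) = IntermediateField.adjoin K {x, x'} := by
  apply le_antisymm
  · refine IntermediateField.adjoin_le_iff.2 ?_
    rintro r ⟨E, hE, hr⟩
    have h1 : x ∈ IntermediateField.adjoin K {x, x'} :=
      IntermediateField.subset_adjoin K _ (by simp)
    have h2 : x' ∈ IntermediateField.adjoin K {x, x'} :=
      IntermediateField.subset_adjoin K _ (by simp)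
    rcases hE with rfl | hE
    · rcases sq_eq_sq_iff_eq_or_eq_neg.1 (hr.trans hx.symm) with rfl | rfl
      · exact h1
      · exact neg_mem h1
    · rw [Set.mem_singleton_iff] at hE
      subst hE
      rcases sq_eq_sq_iff_eq_or_eq_neg.1 (hr.trans hx'.symm) with rfl | rfl
      · exact h2
      · exact neg_mem h2
  · refine IntermediateField.adjoin_le_iff.2 ?_
    rintro r (rfl | hr)
    · exact root_mem (by simp) hx
    · rw [Set.mem_singleton_iff] at hr
      subst hr
      exact root_mem (by simp) hx'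

omit [NumberField K] in
lemma fin_pair (D D' : 𝓞 K) : FiniteDimensional K (tower ({D, D'} : Set (𝓞 K))) := by
  obtain ⟨x, hx⟩ := IsAlgClosed.exists_pow_nat_eq (algebraMap K (AlgebraicClosure K) (D : K))
    two_pos
  obtain ⟨x', hx'⟩ := IsAlgClosed.exists_pow_nat_eq (algebraMap K (AlgebraicClosure K) (D' : K))
    two_pos
  rw [tower_pair hx hx']
  exact IntermediateField.finiteDimensional_adjoin fun y _ => Algebra.IsIntegral.isIntegral y

lemma card_le (D D' : 𝓞 K) :
    Nat.card (tower ({D, D'} : Set (𝓞 K)) ≃ₐ[K] tower ({D, D'} : Set (𝓞 K))) ≤ 4 := by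
  classical
  obtain ⟨x, hx⟩ := IsAlgClosed.exists_pow_nat_eq (algebraMap K (AlgebraicClosure K) (D : K))
    two_pos
  obtain ⟨x', hx'⟩ := IsAlgClosed.exists_pow_nat_eq (algebraMap K (AlgebraicClosure K) (D' : K))
    two_pos
  set M := tower ({D, D'} : Set (𝓞 K)) with hM
  have hn : Normal K M := norm_sub M le_rfl
  have hxM : x ∈ M := root_mem (by simp) hx
  have hxM' : x' ∈ M := root_mem (by simp) hx'
  have key : ∀ (a : M ≃ₐ[K] M) (z : M), ((a z : M) : AlgebraicClosure K) =
      (a.liftNormal (AlgebraicClosure K)) z := fun a z => (a.liftNormal_commutes _ z).symm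
  let f : (M ≃ₐ[K] M) → Bool × Bool := fun a =>
    (decide (a.liftNormal (AlgebraicClosure K) x = x),
      decide (a.liftNormal (AlgebraicClosure K) x' = x'))
  have hf : Function.Injective f := by
    intro s t hst
    have h1 : decide (s.liftNormal (AlgebraicClosure K) x = x) =
        decide (t.liftNormal (AlgebraicClosure K) x = x) := congrArg Prod.fst hst
    have h2 : decide (s.liftNormal (AlgebraicClosure K) x' = x') =
        decide (t.liftNormal (AlgebraicClosure K) x' = x') := congrArg Prod.snd hst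
    rw [decide_eq_decide] at h1 h2
    have hgen : ∀ (y : AlgebraicClosure K), y ∈ roots ({D, D'} : Set (𝓞 K)) →
        (s.liftNormal (AlgebraicClosure K) y = y ↔ t.liftNormal (AlgebraicClosure K) y = y) →
        s.liftNormal (AlgebraicClosure K) y = t.liftNormal (AlgebraicClosure K) y := by
      intro y hy h3
      have h4 : s.liftNormal (AlgebraicClosure K) y = y ∨
          s.liftNormal (AlgebraicClosure K) y = -y :=
        act_root ((s.liftNormal (AlgebraicClosure K) : _ ≃ₐ[K] _) : _ →ₐ[K] _) hy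
      have h5 : t.liftNormal (AlgebraicClosure K) y = y ∨
          t.liftNormal (AlgebraicClosure K) y = -y :=
        act_root ((t.liftNormal (AlgebraicClosure K) : _ ≃ₐ[K] _) : _ →ₐ[K] _) hy
      by_cases h6 : s.liftNormal (AlgebraicClosure K) y = y
      · rw [h6, h3.1 h6]
      · rw [h4.resolve_left h6, h5.resolve_left fun h7 => h6 (h3.2 h7)]
    have hx0 := hgen x ⟨D, by simp, hx⟩ h1
    have hx0' := hgen x' ⟨D', by simp, hx'⟩ h2
    apply AlgEquiv.ext
    intro z
    apply Subtype.ext
    rw [key, key]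
    refine ext_tower (f := ((s.liftNormal (AlgebraicClosure K) : _ ≃ₐ[K] _) : _ →ₐ[K] _))
      (g := ((t.liftNormal (AlgebraicClosure K) : _ ≃ₐ[K] _) : _ →ₐ[K] _)) ?_ z.2
    rintro r ⟨E, hE, hr⟩
    show s.liftNormal (AlgebraicClosure K) r = t.liftNormal (AlgebraicClosure K) r
    rcases hE with rfl | hE
    · rcases sq_eq_sq_iff_eq_or_eq_neg.1 (hr.trans hx.symm) with rfl | rfl
      · exact hx0
      · rw [map_neg, map_neg, hx0]
    · rw [Set.mem_singleton_iff] at hE
      subst hE
      rcases sq_eq_sq_iff_eq_or_eq_neg.1 (hr.trans hx'.symm) with rfl | rfl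
      · exact hx0'
      · rw [map_neg, map_neg, hx0']
  have h3 := Nat.card_le_card_of_injective f hf
  have h4 : Nat.card (Bool × Bool) = 4 := by
    rw [Nat.card_eq_fintype_card]
    rfl
  rwa [h4] at h3

/-- the octic fields -/
theorem octic (h : IQ K σ δ) {D : 𝓞 K} (h1 : ¬ IsSquare (D : K))
    (h2 : ¬ IsSquare ((D : K) * (tau h D : K))) :
    Module.finrank K (tower ({D, tau h D} : Set (𝓞 K))) = 4 ∧
      IsGalois ℚ (tower ({D, tau h D} : Set (𝓞 K))) ∧
      ∃ s t : tower ({D, tau h D} : Set (𝓞 K)) ≃ₐ[ℚ] tower ({D, tau h D} : Set (𝓞 K)),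
        s * t ≠ t * s := by
  have hcj : ∀ E ∈ ({D, tau h D} : Set (𝓞 K)), tau h E ∈ ({D, tau h D} : Set (𝓞 K)) := by
    rintro E (rfl | hE)
    · simp
    · rw [Set.mem_singleton_iff] at hE
      subst hE
      rw [tau_tau]
      simp
  have hgal := tower_galois h hcj
  obtain ⟨s, t, hst⟩ := tower_noncomm h hcj (D := D) (by simp) h1 h2
  refine ⟨?_, hgal, s, t, hst⟩
  have hfd := fin_pair D (tau h D)
  have hgK := gal_sub (tower ({D, tau h D} : Set (𝓞 K))) le_rfl
  obtain ⟨k, hk⟩ := rank_two (tower ({D, tau h D} : Set (𝓞 K))) le_rfl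
  have hle := card_le D (tau h D)
  rw [IsGalois.card_aut_eq_finrank, hk] at hle
  rw [hk]
  have hk2 : k ≤ 2 := (Nat.pow_le_pow_iff_right (by norm_num)).1 (hle.trans (by norm_num))
  have hQ : Module.finrank ℚ (tower ({D, tau h D} : Set (𝓞 K))) = 2 * 2 ^ k := by
    rw [← hk, ← h.deg]
    exact (Module.finrank_mul_finrank ℚ K _).symm
  have hfdQ : FiniteDimensional ℚ (tower ({D, tau h D} : Set (𝓞 K))) :=
    FiniteDimensional.trans ℚ K _
  have hc : Nat.card (tower ({D, tau h D} : Set (𝓞 K)) ≃ₐ[ℚ]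
      tower ({D, tau h D} : Set (𝓞 K))) = 2 * 2 ^ k := by
    rw [IsGalois.card_aut_eq_finrank, hQ]
  interval_cases k
  · exfalso
    have hp : Fact (Nat.Prime 2) := ⟨Nat.prime_two⟩
    have hcy := isCyclic_of_prime_card (p := 2) (hc.trans (by norm_num))
    obtain ⟨g, hg⟩ := hcy.exists_generator
    obtain ⟨i, rfl⟩ := Subgroup.mem_zpowers_iff.1 (hg s)
    obtain ⟨j, rfl⟩ := Subgroup.mem_zpowers_iff.1 (hg t)
    apply hst
    rw [← zpow_add, ← zpow_add, add_comm]
  · exfalso
    have hp : Fact (Nat.Prime 2) := ⟨Nat.prime_two⟩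
    have hcm := IsPGroup.isMulCommutative_of_card_eq_prime_sq (p := 2) (hc.trans (by norm_num))
    exact hst (hcm.is_comm.comm s t)
  · norm_num

/-- **Infinitely many octic fields** -/
theorem dihedral (h : IQ K σ δ) {𝒟 : Set (𝓞 K)} (dcj : ∀ D ∈ 𝒟, tau h D ∈ 𝒟)
    {D : ℕ → 𝓞 K} (hD : ∀ j, D j ∈ 𝒟) (hind : ∀ S S' : Finset ℕ, S.Nonempty ∨ S'.Nonempty →
        ¬ IsSquare ((∏ j ∈ S, (D j : K)) * ∏ j ∈ S', (tau h (D j) : K))) :
    {F : IntermediateField K (AlgebraicClosure K) | F ≤ tower 𝒟 ∧ Module.finrank K F = 4 ∧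
      IsGalois ℚ F ∧ ∃ s t : F ≃ₐ[ℚ] F, s * t ≠ t * s}.Infinite := by
  classical
  have hs1 : ∀ i, ¬ IsSquare (D i : K) := by
    intro i
    have h1 := hind {i} ∅ (Or.inl ⟨i, by simp⟩)
    rwa [Finset.prod_singleton, Finset.prod_empty, mul_one] at h1
  have hs2 : ∀ i, ¬ IsSquare ((D i : K) * (tau h (D i) : K)) := by
    intro i
    have h1 := hind {i} {i} (Or.inl ⟨i, by simp⟩)
    rwa [Finset.prod_singleton, Finset.prod_singleton] at h1
  refine Set.infinite_of_injective_forall_mem
    (f := fun i => tower ({D i, tau h (D i)} : Set (𝓞 K))) ?_ fun i => ⟨?_, octic h (hs1 i) (hs2 i)⟩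
  · intro i j hij
    by_contra hne
    have hij' : tower ({D i, tau h (D i)} : Set (𝓞 K)) = tower ({D j, tau h (D j)} : Set (𝓞 K)) :=
      hij
    obtain ⟨x, hx⟩ := IsAlgClosed.exists_pow_nat_eq
      (algebraMap K (AlgebraicClosure K) (D i : K)) two_pos
    obtain ⟨x', hx'⟩ := IsAlgClosed.exists_pow_nat_eq
      (algebraMap K (AlgebraicClosure K) (tau h (D i) : K)) two_pos
    obtain ⟨z, hz⟩ := IsAlgClosed.exists_pow_nat_eq
      (algebraMap K (AlgebraicClosure K) (D j : K)) two_pos
    have hzm : z ∈ tower ({D j, tau h (D j)} : Set (𝓞 K)) := root_mem (by simp) hz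
    rw [← hij', tower_pair hx hx'] at hzm
    have hne0 : (D i : K) ≠ 0 := fun h0 => hs1 i (by rw [h0]; exact ⟨0, by simp⟩)
    have hji : j ≠ i := fun h0 => hne h0.symm
    rcases two_kummer hne0 hx hx' hz hzm with h3 | h3 | h3 | h3
    · exact hs1 j h3
    · have h4 := hind {j} {i} (Or.inl ⟨j, by simp⟩)
      rw [Finset.prod_singleton, Finset.prod_singleton] at h4
      exact h4 h3
    · have h4 := hind {j, i} ∅ (Or.inl ⟨j, by simp⟩)
      rw [Finset.prod_pair hji, Finset.prod_empty, mul_one] at h4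
      exact h4 h3
    · have h4 := hind {j, i} {i} (Or.inl ⟨j, by simp⟩)
      rw [Finset.prod_pair hji, Finset.prod_singleton, mul_assoc] at h4
      exact h4 h3
  · refine IntermediateField.adjoin.mono K _ _ ?_
    rintro r ⟨E, hE, hr⟩
    refine ⟨E, ?_, hr⟩
    rcases hE with rfl | hE
    · exact hD i
    · rw [Set.mem_singleton_iff] at hE
      subst hE
      exact dcj _ (hD i)

end Pool.Agent.U81.TP
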