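import Pool.Agent.U81.TP.Dih
import Pool.Agent.U81.MQ.Top
import Pool.Agent.K4H15.BZ.Irr

/-!
The `L`-functions of the triple products for the finite layers of the towers.
-/

set_option autoImplicit false

namespace Pool.Agent.U81.TP

open NumberField IsDedekindDomain Pointwise WithZero Filter Matrix
open Pool.Agent.K4H15.BW (tower roots root_mem efD NVD)
open Pool.Agent.K4H55.BI (IQ BF)
open Pool.Agent.K4H55.BD (low mem_low pv crv Cub QE tau tau_tau mul_tau norm_eq)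
open Pool.Agent.K4H55.CX (facF SelG fin_up)
open Pool.Agent.K4H15.BT (cM)
open Pool.Agent.K4H15.BZ (KD kp Irr eulQ Fx)
open Pool.Agent.U81.MQ

/-- The `L`-functions of the tensor products `ρ` of `ρg` and `ρh`, `ρg` irreducible. -/
def AllL (F : Type) [Field F] [NumberField F] (A : ℕ → ℂ) (N : ℕ) : Prop :=
  IsGalois ℚ F → ∀ (ρg ρh : (F ≃ₐ[ℚ] F) →* GL (Fin 2) ℂ)
    (ρ : (F ≃ₐ[ℚ] F) →* GL (Fin 2 × Fin 2) ℂ), Irr ρg →
    (∀ s α, (1 - α • cM (ρ s)).det = kp (cM (ρg s)).trace (cM (ρg s)).det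
      (cM (ρh s)).trace (cM (ρh s)).det α) →
    ∃ L : ℂ → ℂ, MeromorphicOn L Set.univ ∧
      (∀ V : Nat.Primes → HeightOneSpectrum (𝓞 F),
        (∀ p : Nat.Primes, ((p : ℕ) : 𝓞 F) ∈ (V p).asIdeal) → ∀ s : ℂ, 2 < s.re →
        HasProd (fun p : Nat.Primes => eulQ A N ρ (V p) s p) (L s)) ∧
      AnalyticAt ℂ L 1 ∧ L 1 ≠ 0

variable {K : Type} [Field K] [NumberField K] {σ : K →+* ℂ} {δ : K} {a b n : 𝓞 K}
  {c : Ideal (𝓞 K) → ℂ}

/-- Kummer data -/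
lemma kd {𝒟 : Set (𝓞 K)} (h : Twr 𝒟) (F : IntermediateField K (AlgebraicClosure K))
    (hF : F ≤ tower 𝒟) [FiniteDimensional K F] [NumberField F] : KD K 𝒟 F := by
  classical
  have hgal := gal_sub F hF
  obtain ⟨D, x, hk, hD⟩ := exists_kum h F hF
  refine ⟨comm_sub F hF, fun χ => ?_⟩
  refine ⟨D χ.toHomUnits, hD _, (x χ.toHomUnits : F), ?_, fun t => ?_⟩
  · have h1 : algebraMap (𝓞 F) F (x χ.toHomUnits ^ 2) =
        algebraMap (𝓞 F) F (algebraMap (𝓞 K) (𝓞 F) (D χ.toHomUnits)) :=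
      congrArg _ (hk.sq χ.toHomUnits)
    rw [map_pow, ← IsScalarTower.algebraMap_apply (𝓞 K) (𝓞 F) F,
      IsScalarTower.algebraMap_apply (𝓞 K) K F] at h1
    exact h1
  · have hv : ((χ.toHomUnits t : ℂˣ) : ℂ) = χ t := χ.coe_toHomUnits t
    by_cases h1 : χ.toHomUnits t = 1
    · left
      refine ⟨congrArg (fun z : 𝓞 F => (z : F)) (hk.fix χ.toHomUnits t h1), ?_⟩
      rw [← hv, h1, Units.val_one]
    · right
      refine ⟨congrArg (fun z : 𝓞 F => (z : F)) (hk.neg χ.toHomUnits t h1), ?_⟩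
      rw [← hv, (sgn_two (two_sub F hF) χ.toHomUnits t).resolve_left h1, Units.val_neg,
        Units.val_one]

variable {L : Type} [Field L] [NumberField L] [Algebra K L] {θ : L}

/-- **The towers.** -/
theorem pairs (h : IQ K σ δ) [IsPrincipalIdealRing (𝓞 K)] (hΔ : 4 * a ^ 3 + 27 * b ^ 2 ≠ 0)
    (hf : BF σ δ n c)
    (hE : ∀ v : HeightOneSpectrum (𝓞 K), 2 * (4 * a ^ 3 + 27 * b ^ 2) ∉ v.asIdeal →
      n ∉ v.asIdeal ∧ c v.asIdeal = (Ideal.absNorm v.asIdeal : ℂ) - pv a b v)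
    (h0 : NVD a b n c 1) (hK : Cub K θ)
    (hθ : θ ^ 3 + algebraMap K L a * θ + algebraMap K L b = 0) (hS : SelG a b θ)
    {Q : Set ℕ} (hQi : Q.Infinite) (hQ : ∀ q ∈ Q, q ∈ QE h a b n)
    {N : ℕ} {A : ℕ → ℂ} {m : ℤ} (hm : 2 * (4 * a ^ 3 + 27 * b ^ 2) = (m : 𝓞 K))
    (hur : ∀ w : HeightOneSpectrum (𝓞 K), 2 * (4 * a ^ 3 + 27 * b ^ 2) ∈ w.asIdeal →
      ∀ p : ℕ, p.Prime → (p : 𝓞 K) ∈ w.asIdeal → (p : 𝓞 K) ∉ w.asIdeal ^ 2)
    (hn : n = (N : 𝓞 K))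
    (hA : ∀ p : ℕ, p.Prime → ¬ (p : ℤ) ∣ m → ¬ p ∣ N ∧ ∃ k : ℕ, k ≤ 2 * p ∧ A p = p - k)
    (hc1 : ∀ p : ℕ, p.Prime → ∀ w : HeightOneSpectrum (𝓞 K), (p : 𝓞 K) ∈ w.asIdeal →
      Ideal.absNorm w.asIdeal = p → c w.asIdeal = A p)
    (hc2 : ∀ p : ℕ, p.Prime → ∀ w : HeightOneSpectrum (𝓞 K), (p : 𝓞 K) ∈ w.asIdeal →
      Ideal.absNorm w.asIdeal = p ^ 2 →
      c w.asIdeal = A p ^ 2 - (if p ∣ N then 0 else 2 * (p : ℂ))) :
    ∃ T : IntermediateField K (AlgebraicClosure K), IsGalois ℚ T ∧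
      (∀ s : T ≃ₐ[K] T, s * s = 1) ∧
      {F : IntermediateField K (AlgebraicClosure K) | F ≤ T ∧ Module.finrank K F = 4 ∧
        IsGalois ℚ F ∧ ∃ s t : F ≃ₐ[ℚ] F, s * t ≠ t * s}.Infinite ∧
      ∀ (F : IntermediateField K (AlgebraicClosure K)) [NumberField F], F ≤ T →
        IsGalois K F ∧ (∃ k : ℕ, Module.finrank K F = 2 ^ k) ∧
        (∀ v : HeightOneSpectrum (𝓞 K), 2 * (4 * a ^ 3 + 27 * b ^ 2) ∈ v.asIdeal →
          Nonempty (F →ₐ[K] v.adicCompletion K)) ∧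
        (∀ u : HeightOneSpectrum (𝓞 F),
          2 * (4 * a ^ 3 + 27 * b ^ 2) ∉ (low (K := K) u).asIdeal →
          (∀ q ∈ Q, (q : 𝓞 K) ∉ (low (K := K) u).asIdeal) →
          ∀ x : K, u.valuation F (algebraMap K F x) = (low (K := K) u).valuation K x) ∧
        Finite (crv (algebraMap K F a) (algebraMap K F b)).toAffine.Point ∧
        AllL F A N := by
  classical
  set x0 : 𝓞 K := 4 * a ^ 3 + 27 * b ^ 2 with hx0
  have hnorm : (Algebra.norm ℤ x0).natAbs ≠ 0 := by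
    rw [Ne, Int.natAbs_eq_zero]
    exact Algebra.norm_ne_zero_iff.2 hΔ
  set M : ℕ := 8 * (Algebra.norm ℤ x0).natAbs with hM
  have hM0 : M ≠ 0 := mul_ne_zero (by norm_num) hnorm
  have hMv : ∀ v : HeightOneSpectrum (𝓞 K), 2 * x0 ∈ v.asIdeal → (M : 𝓞 K) ∈ v.asIdeal := by
    intro v hv
    rcases v.isPrime.mem_or_mem hv with h2 | h2
    · have e : (M : 𝓞 K) = 2 * (4 * ((Algebra.norm ℤ x0).natAbs : 𝓞 K)) := by
        rw [hM]; push_cast; ring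
      rw [e]
      exact v.asIdeal.mul_mem_right _ h2
    · have h3 : ((Algebra.norm ℤ x0 : ℤ) : 𝓞 K) ∈ v.asIdeal := by
        rw [← mul_tau h]
        exact v.asIdeal.mul_mem_right _ h2
      have h4 : (((Algebra.norm ℤ x0).natAbs : ℕ) : 𝓞 K) ∈ v.asIdeal := by
        rcases Int.natAbs_eq (Algebra.norm ℤ x0) with h5 | h5
        · rw [h5, Int.cast_natCast] at h3
          exact h3
        · rw [h5, Int.cast_neg, Int.cast_natCast, neg_mem_iff] at h3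
          exact h3
      have e : (M : 𝓞 K) = (((Algebra.norm ℤ x0).natAbs : ℕ) : 𝓞 K) * 8 := by
        rw [hM]; push_cast; ring
      rw [e]
      exact v.asIdeal.mul_mem_right _ h4
  obtain ⟨𝒟, d1, dcj, dmul, dall, D, hD, hind⟩ :=
    Pool.Agent.K4H15.BW.main h hΔ hf hE h0 hM0 (Q := Q) hQ hQi
  have hT : Twr 𝒟 := ⟨fun D hD => (dall D hD).2.1, d1, dmul,
    fun D hD v hv => ((dall D hD).2.2.2.2.1 v hv).1⟩
  refine ⟨tower 𝒟, Pool.Agent.K4H15.BW.tower_galois h dcj,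
    fun s => two_sub (tower 𝒟) le_rfl s, dihedral h dcj hD hind, fun F _ hF => ?_⟩
  have hfd : FiniteDimensional K F := Module.Finite.of_restrictScalars_finite ℚ K F
  have hgal := gal_sub F hF
  obtain ⟨k, hk⟩ := rank_two F hF
  obtain ⟨DD, x, hkum, hDD⟩ := exists_kum hT F hF
  have hM1 : ∀ v : HeightOneSpectrum (𝓞 K), 2 * (4 * a ^ 3 + 27 * b ^ 2) ∈ v.asIdeal →
      ∀ D ∈ 𝒟, D - 1 ∈ v.asIdeal := by
    intro v hv D hD
    obtain ⟨y, hy⟩ := (dall _ hD).2.2.1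
    rw [hy]
    exact v.asIdeal.mul_mem_right _ (hMv v hv)
  have h8 : ∀ D ∈ 𝒟, (8 : 𝓞 K) ∣ D - 1 := by
    intro D hD
    refine dvd_trans ⟨((Algebra.norm ℤ x0).natAbs : 𝓞 K), ?_⟩ (dall _ hD).2.2.1
    rw [hM]; push_cast; ring
  have hemb : ∀ v : HeightOneSpectrum (𝓞 K), 2 * (4 * a ^ 3 + 27 * b ^ 2) ∈ v.asIdeal →
      Nonempty (F →ₐ[K] v.adicCompletion K) := fun v hv =>
    emb_sub v (fun D hD => (dall D hD).2.2.2.1 v (v.asIdeal.mul_mem_right _ hv)) F hF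
  have h2u : ∀ u : HeightOneSpectrum (𝓞 F),
      2 * (4 * a ^ 3 + 27 * b ^ 2) ∉ (low (K := K) u).asIdeal → (2 : 𝓞 F) ∉ u.asIdeal := by
    intro u hu h2
    apply hu
    refine (low (K := K) u).asIdeal.mul_mem_right _ ?_
    rw [mem_low, map_ofNat]
    exact h2
  refine ⟨hgal, ⟨k, hk⟩, hemb, fun u hu hq y => ?_, ?_, ?_⟩
  · refine hkum.unram u (h2u u hu) (fun χ hχ => ?_) y
    obtain ⟨-, -, q, hqQ, hqv⟩ := (dall _ (hDD χ)).2.2.2.2.1 _ hχ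
    exact hq q hqQ hqv
  · refine (fin_up (F := F) hΔ hK hθ hS hk hemb fun u hu => ?_).1.1
    by_cases hex : ∃ χ, DD χ ∈ (low (K := K) u).asIdeal
    · obtain ⟨χ, hχ⟩ := hex
      exact Or.inl ((dall _ (hDD χ)).2.2.2.2.1 _ hχ).2.1
    · push Not at hex
      exact Or.inr fun y => hkum.unram u (h2u u hu) hex y
  · intro hgQ ρg ρh ρ hirr hρ
    have hKD := kd hT F hF
    exact Pool.Agent.K4H15.BZ.an_main h hKD
      (fun D hD => ⟨(dall D hD).2.1, h8 D hD, fun w hw => hM1 w hw D hD, (dall D hD).2.2.2.2.2⟩)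
      hm hE hur hn hA hc1 hc2
      (fun s hs => Pool.Agent.K4H15.BZ.trace_irr h hKD hirr s hs) hρ

end Pool.Agent.U81.TP
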